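import Pool.Agent.Helper88.CR.GoalsB
import Pool.Agent.Helper75.LG.PH
import Pool.Agent.Helper73.RR.RK

/-!
# Packet CR-RC: the choice of the class, with blocks
-/

set_option autoImplicit false

open Finset Filter Topology

open scoped Classical

namespace Pool.Agent.Helper64.CR

open Pool.Agent.Helper88.CR

/-! ## Counting -/

theorem count_coprime (q h : ℕ) :
    ((range q).filter (fun b => Nat.Coprime (b + h) q)).card = Nat.totient q := by
  rw [← Nat.filter_coprime_Ico_eq_totient q h]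
  refine card_bij (fun b _ => b + h) ?_ ?_ ?_
  · intro b hb
    rw [mem_filter, mem_range] at hb
    rw [mem_filter, mem_Ico]
    exact ⟨⟨by omega, by omega⟩, hb.2.symm⟩
  · intro b _ b' _ hbb
    omega
  · intro x hx
    rw [mem_filter, mem_Ico] at hx
    refine ⟨x - h, ?_, by omega⟩
    rw [mem_filter, mem_range, Nat.sub_add_cancel hx.1.1]
    exact ⟨by omega, hx.2.symm⟩

theorem sum_count (q : ℕ) (A : Finset ℕ) :
    ∑ b ∈ range q, (A.filter (fun h => Nat.Coprime (b + h) q)).card =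
      A.card * Nat.totient q := by
  simp_rw [card_filter]
  rw [sum_comm]
  have h1 : ∀ h ∈ A, ∑ b ∈ range q, (if Nat.Coprime (b + h) q then 1 else 0) =
      Nat.totient q := by
    intro h _
    rw [← card_filter, count_coprime]
  rw [sum_congr rfl h1, sum_const, smul_eq_mul]

/-- Paley-Zygmund. -/
theorem pz (n : ℕ) (X : ℕ → ℝ) (μ C : ℝ) (hμ : 0 < μ)
    (h1 : μ * n ≤ ∑ b ∈ range n, X b) (h2 : ∑ b ∈ range n, X b ^ 2 ≤ C * (μ ^ 2 * n)) :
    (n : ℝ) ≤ 4 * C * ((range n).filter (fun b => μ / 2 ≤ X b)).card := by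
  rcases Nat.eq_zero_or_pos n with rfl | hn
  · simp
  have hn' : (0 : ℝ) < n := by exact_mod_cast hn
  set G := (range n).filter (fun b => μ / 2 ≤ X b) with hG
  have hsplit : ∑ b ∈ range n, X b = ∑ b ∈ G, X b +
      ∑ b ∈ (range n).filter (fun b => ¬ μ / 2 ≤ X b), X b :=
    (sum_filter_add_sum_filter_not _ _ _).symm
  have hlow : ∑ b ∈ (range n).filter (fun b => ¬ μ / 2 ≤ X b), X b ≤ μ / 2 * n := by
    calc ∑ b ∈ (range n).filter (fun b => ¬ μ / 2 ≤ X b), X b
        ≤ ∑ _b ∈ (range n).filter (fun b => ¬ μ / 2 ≤ X b), μ / 2 :=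
          sum_le_sum fun b hb => (not_le.1 (mem_filter.1 hb).2).le
      _ = ((range n).filter (fun b => ¬ μ / 2 ≤ X b)).card * (μ / 2) := by
          rw [sum_const, nsmul_eq_mul]
      _ ≤ n * (μ / 2) := by
          have h3 : ((range n).filter (fun b => ¬ μ / 2 ≤ X b)).card ≤ n := by
            simpa using card_filter_le (range n) (fun b => ¬ μ / 2 ≤ X b)
          have h4 : (((range n).filter (fun b => ¬ μ / 2 ≤ X b)).card : ℝ) ≤ n := by
            exact_mod_cast h3
          exact mul_le_mul_of_nonneg_right h4 (by linarith)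
      _ = μ / 2 * n := by ring
  have hG1 : μ / 2 * n ≤ ∑ b ∈ G, X b := by linarith
  have hcs : (∑ b ∈ G, X b) ^ 2 ≤ (G.card : ℝ) * ∑ b ∈ G, X b ^ 2 := sq_sum_le_card_mul_sum_sq
  have hG2 : ∑ b ∈ G, X b ^ 2 ≤ C * (μ ^ 2 * n) :=
    (sum_le_sum_of_subset_of_nonneg (filter_subset _ _) (fun _ _ _ => sq_nonneg _)).trans h2
  have h3 : (μ / 2 * n) ^ 2 ≤ (G.card : ℝ) * (C * (μ ^ 2 * n)) :=
    (pow_le_pow_left₀ (by positivity) hG1 2).trans
      (hcs.trans (mul_le_mul_of_nonneg_left hG2 (Nat.cast_nonneg _)))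
  have h4 : (μ ^ 2 * n) * n ≤ (μ ^ 2 * n) * (4 * C * G.card) := by nlinarith
  exact le_of_mul_le_mul_left h4 (by positivity)

/-- Selection of the class. -/
theorem select (n M' : ℕ) (C2 τ : ℝ) (hn : 0 < n) (Good : ℕ → ℕ → Prop) (Tot : ℕ → ℝ)
    (hTot : ∀ b, 0 ≤ Tot b)
    (h1 : ∀ a ∈ Icc 1 M', (n : ℝ) ≤ 4 * C2 * ((range n).filter (fun b => Good a b)).card)
    (h2 : ∑ b ∈ range n, Tot b ≤ τ * n) (hτ : 0 < τ) (hC2 : 0 < C2) (hM' : 0 < M') :
    ∃ b < n, (M' : ℝ) / (8 * C2) ≤ ((Icc 1 M').filter (fun a => Good a b)).card ∧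
      Tot b ≤ 8 * C2 * τ := by
  have hn' : (0 : ℝ) < n := by exact_mod_cast hn
  have hM'' : (0 : ℝ) < M' := by exact_mod_cast hM'
  set A : ℝ := M' / (8 * C2) with hA
  have hA0 : 0 < A := by positivity
  have hS : 2 * A * n ≤ ∑ b ∈ range n, (((Icc 1 M').filter (fun a => Good a b)).card : ℝ) := by
    have e : ∑ b ∈ range n, (((Icc 1 M').filter (fun a => Good a b)).card : ℝ) =
        ∑ a ∈ Icc 1 M', (((range n).filter (fun b => Good a b)).card : ℝ) := by
      simp_rw [card_filter]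
      push_cast
      rw [sum_comm]
    rw [e]
    calc 2 * A * n = ∑ _a ∈ Icc 1 M', (n : ℝ) / (4 * C2) := by
          rw [sum_const, nsmul_eq_mul, Nat.card_Icc, Nat.add_sub_cancel, hA]
          field_simp
          ring
      _ ≤ _ := by
          refine sum_le_sum fun a ha => ?_
          rw [div_le_iff₀ (by positivity)]
          have := h1 a ha
          linarith
  obtain ⟨b, hb, hb2⟩ : ∃ b ∈ range n, A ≤
      (((Icc 1 M').filter (fun a => Good a b)).card : ℝ) - A / τ * Tot b := by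
    refine exists_le_of_sum_le ⟨0, mem_range.2 hn⟩ ?_
    rw [sum_const, nsmul_eq_mul, card_range, sum_sub_distrib, ← mul_sum]
    have h3 : A / τ * ∑ b ∈ range n, Tot b ≤ A * n := by
      calc A / τ * ∑ b ∈ range n, Tot b ≤ A / τ * (τ * n) := by gcongr
        _ = A * n := by field_simp
    linarith
  refine ⟨b, mem_range.1 hb, ?_, ?_⟩
  · have h3 : 0 ≤ A / τ * Tot b := mul_nonneg (by positivity) (hTot b)
    linarith
  · have h3 : (((Icc 1 M').filter (fun a => Good a b)).card : ℝ) ≤ M' := by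
      have h4 : ((Icc 1 M').filter (fun a => Good a b)).card ≤ M' := by
        simpa using card_filter_le (Icc 1 M') (fun a => Good a b)
      exact_mod_cast h4
    have h5 : A / τ * Tot b ≤ M' := by linarith
    have h6 : Tot b = τ / A * (A / τ * Tot b) := by field_simp
    rw [h6]
    calc τ / A * (A / τ * Tot b) ≤ τ / A * M' := by gcongr
      _ = 8 * C2 * τ := by rw [hA]; field_simp

/-! ## Blocks -/

theorem ivt (P : ℕ → Prop) [DecidablePred P] (u s : ℕ) : ∀ H, s ≤ ((Ioc u (u + H)).filter P).card →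
    ∃ v, u ≤ v ∧ v ≤ u + H ∧ ((Ioc u v).filter P).card = s := by
  intro H
  induction H with
  | zero =>
    intro h
    refine ⟨u, le_rfl, by omega, ?_⟩
    simp only [add_zero, Ioc_self, filter_empty, card_empty] at h ⊢
    omega
  | succ H ih =>
    intro h
    by_cases h1 : s ≤ ((Ioc u (u + H)).filter P).card
    · obtain ⟨v, hv1, hv2, hv3⟩ := ih h1
      exact ⟨v, hv1, by omega, hv3⟩
    · refine ⟨u + (H + 1), by omega, le_rfl, ?_⟩
      have h2 : ((Ioc u (u + (H + 1))).filter P).card ≤ ((Ioc u (u + H)).filter P).card + 1 := by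
        have h3 : (Ioc u (u + (H + 1))).filter P ⊆
            insert (u + (H + 1)) ((Ioc u (u + H)).filter P) := by
          intro x hx
          rw [mem_filter, mem_Ioc] at hx
          rw [mem_insert, mem_filter, mem_Ioc]
          by_cases hx2 : x = u + (H + 1)
          · exact Or.inl hx2
          · exact Or.inr ⟨⟨hx.1.1, by omega⟩, hx.2⟩
        exact (card_le_card h3).trans (card_insert_le _ _)
      omega

theorem enum_lt (G : Finset ℕ) (M : ℕ) (h : M ≤ G.card) :
    ∃ a : ℕ → ℕ, (∀ i < M, a i ∈ G) ∧ ∀ i, i + 1 < M → a i < a (i + 1) := by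
  obtain ⟨G', hG', hc⟩ := exists_subset_card_eq h
  refine ⟨fun i => if hi : i < M then G'.orderEmbOfFin hc ⟨i, hi⟩ else 0, ?_, ?_⟩
  · intro i hi
    simp only [dif_pos hi]
    exact hG' (orderEmbOfFin_mem _ _ _)
  · intro i hi
    have h1 : i < M := by omega
    simp only [dif_pos hi, dif_pos h1]
    exact (G'.orderEmbOfFin hc).strictMono (by rw [Fin.lt_def]; simp)

/-! ## Primes -/

theorem totient_prod (T : Finset ℕ) (hT : ∀ p ∈ T, p.Prime) :
    (Nat.totient (∏ p ∈ T, p) : ℝ) = ((∏ p ∈ T, p : ℕ) : ℝ) * ∏ p ∈ T, (1 - 1 / (p : ℝ)) := by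
  have h := Nat.totient_eq_mul_prod_factors (∏ p ∈ T, p)
  rw [Nat.primeFactors_prod hT] at h
  have h2 : ((Nat.totient (∏ p ∈ T, p) : ℚ) : ℝ) =
      (((∏ p ∈ T, p : ℕ) * ∏ p ∈ T, (1 - (p : ℚ)⁻¹) : ℚ) : ℝ) := by
    rw [h]
  push_cast at h2
  simp only [one_div]
  push_cast
  exact h2

theorem prime_factor {p : ℕ} (hp : p.Prime) : 1 / 2 ≤ 1 - 1 / (p : ℝ) ∧ 1 - 1 / (p : ℝ) ≤ 1 := by
  have h2 : (2 : ℝ) ≤ p := by exact_mod_cast hp.two_le
  have h3 : 1 / (p : ℝ) ≤ 1 / 2 := one_div_le_one_div_of_le (by norm_num) h2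
  have h4 : 0 ≤ 1 / (p : ℝ) := by positivity
  constructor <;> linarith

/-- `∏_{p ≤ t} (1 - 1/p)` -/
noncomputable def WW (t : ℕ) : ℝ := ∏ p ∈ (Icc 1 t).filter Nat.Prime, (1 - 1 / (p : ℝ))

theorem WW_pos (t : ℕ) : 0 < WW t := by
  refine prod_pos fun p hp => ?_
  have := prime_factor (mem_filter.1 hp).2
  linarith [this.1]

theorem erase_bounds (t p : ℕ) (hp : p.Prime) :
    WW t ≤ ∏ r ∈ ((Icc 1 t).filter Nat.Prime).erase p, (1 - 1 / (r : ℝ)) ∧
    ∏ r ∈ ((Icc 1 t).filter Nat.Prime).erase p, (1 - 1 / (r : ℝ)) ≤ 2 * WW t := by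
  have h0 : 0 ≤ ∏ r ∈ ((Icc 1 t).filter Nat.Prime).erase p, (1 - 1 / (r : ℝ)) := by
    refine prod_nonneg fun r hr => ?_
    have := prime_factor (mem_filter.1 (mem_of_mem_erase hr)).2
    linarith [this.1]
  by_cases h : p ∈ (Icc 1 t).filter Nat.Prime
  · have h1 : (1 - 1 / (p : ℝ)) * ∏ r ∈ ((Icc 1 t).filter Nat.Prime).erase p,
        (1 - 1 / (r : ℝ)) = WW t := mul_prod_erase _ (fun r : ℕ => 1 - 1 / (r : ℝ)) h
    obtain ⟨h2, h3⟩ := prime_factor hp
    constructor <;> nlinarith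
  · rw [erase_eq_of_notMem h]
    have := WW_pos t
    unfold WW at *
    constructor <;> linarith

theorem primorial_eq (t : ℕ) : primorial t = ∏ p ∈ (Icc 1 t).filter Nat.Prime, p := by
  unfold primorial
  refine prod_congr ?_ fun _ _ => rfl
  ext p
  rw [mem_filter, mem_filter, mem_range, mem_Icc]
  constructor
  · rintro ⟨h1, h2⟩
    exact ⟨⟨h2.one_le, by omega⟩, h2⟩
  · rintro ⟨h1, h2⟩
    exact ⟨by omega, h2⟩

theorem WW_lower {C : ℝ} (hPH : ∀ y : ℕ, 2 ≤ y →
    (primorial y : ℝ) / (Nat.totient (primorial y) : ℝ) ≤ C * Real.log y) (hC : 0 < C) (t : ℕ)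
    (ht : 2 ≤ t) : 1 / (C * Real.log t) ≤ WW t := by
  have h1 := hPH t ht
  have h2 := totient_prod ((Icc 1 t).filter Nat.Prime) (fun p hp => (mem_filter.1 hp).2)
  rw [← primorial_eq] at h2
  have h3 : (0 : ℝ) < primorial t := by exact_mod_cast primorial_pos t
  have hW := WW_pos t
  have hlt : 0 < Real.log t := Real.log_pos (by exact_mod_cast (by omega : 1 < t))
  rw [h2, ← div_div, div_self h3.ne'] at h1
  change 1 / WW t ≤ _ at h1
  rw [div_le_iff₀ hW] at h1
  rw [div_le_iff₀ (by positivity)]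
  linarith

theorem split (w t p : ℕ) (hp : p.Prime) (hpw : p ≤ w) (htw : t ≤ w) :
    primorial w / p = (∏ r ∈ ((Icc 1 t).filter Nat.Prime).erase p, r) *
      ∏ r ∈ ((Ioc t w).filter Nat.Prime).erase p, r := by
  have h1 : (Icc 1 w).filter Nat.Prime =
      (Icc 1 t).filter Nat.Prime ∪ (Ioc t w).filter Nat.Prime := by
    ext r
    rw [mem_union, mem_filter, mem_filter, mem_filter, mem_Icc, mem_Icc, mem_Ioc]
    constructor
    · rintro ⟨⟨h2, h3⟩, h4⟩
      rcases Nat.lt_or_ge t r with h5 | h5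
      · exact Or.inr ⟨⟨h5, h3⟩, h4⟩
      · exact Or.inl ⟨⟨h2, h5⟩, h4⟩
    · rintro (⟨⟨h2, h3⟩, h4⟩ | ⟨⟨h2, h3⟩, h4⟩)
      · exact ⟨⟨h2, by omega⟩, h4⟩
      · exact ⟨⟨h4.one_le, h3⟩, h4⟩
  have h2 : Disjoint ((Icc 1 t).filter Nat.Prime) ((Ioc t w).filter Nat.Prime) := by
    rw [disjoint_left]
    intro r hr hr2
    rw [mem_filter, mem_Icc] at hr
    rw [mem_filter, mem_Ioc] at hr2
    omega
  have h3 : p ∈ (Icc 1 w).filter Nat.Prime := by
    rw [mem_filter, mem_Icc]
    exact ⟨⟨hp.one_le, hpw⟩, hp⟩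
  have h4 := mul_prod_erase ((Icc 1 w).filter Nat.Prime) (fun r => r) h3
  have h5 : ((Icc 1 w).filter Nat.Prime).erase p =
      ((Icc 1 t).filter Nat.Prime).erase p ∪ ((Ioc t w).filter Nat.Prime).erase p := by
    rw [h1, erase_union_distrib]
  rw [primorial_eq, ← h4, Nat.mul_div_cancel_left _ hp.pos, h5, prod_union]
  exact h2.mono (erase_subset _ _) (erase_subset _ _)

theorem ev_mul_log (K : ℝ) : ∀ᶠ x : ℝ in atTop, K * Real.log x ≤ x := by
  rcases le_or_gt K 0 with hK | hK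
  · filter_upwards [eventually_ge_atTop 1] with x hx
    have := Real.log_nonneg hx
    nlinarith
  · have h := Real.isLittleO_log_id_atTop.def (show 0 < 1 / K by positivity)
    filter_upwards [h, eventually_ge_atTop 1] with x hx hx1
    rw [Real.norm_of_nonneg (Real.log_nonneg hx1), id, Real.norm_of_nonneg (by linarith)] at hx
    calc K * Real.log x ≤ K * (1 / K * x) := by gcongr
      _ = x := by field_simp

theorem div_lower (x m : ℕ) (hm : 0 < m) : (x : ℝ) / m - 1 ≤ ((x / m : ℕ) : ℝ) := by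
  have h1 : x < m * (x / m + 1) := by
    have := Nat.lt_mul_div_succ x hm
    exact this
  have hm' : (0 : ℝ) < m := by exact_mod_cast hm
  have h2 : (x : ℝ) < m * (((x / m : ℕ) : ℝ) + 1) := by exact_mod_cast h1
  have h3 : (x : ℝ) / m ≤ ((x / m : ℕ) : ℝ) + 1 := by
    rw [div_le_iff₀ hm']
    linarith
  linarith

/-- The numbers prime to `q₂`. -/
theorem N2_card (w t p y : ℕ) (ht : 0 < t) (htw : t ≤ w) (B : ℝ)
    (hB : (((Icc 1 y).filter (fun h : ℕ => ∀ p, p.Prime → t < p → p ≤ w → ¬ p ∣ h)).card : ℝ)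
      ≤ B) :
    (((Icc 1 y).filter (fun h => Nat.Coprime h
      (∏ r ∈ ((Ioc t w).filter Nat.Prime).erase p, r))).card : ℝ) ≤ B + y / t := by
  set S := (Icc 1 y).filter (fun h : ℕ => ∀ p, p.Prime → t < p → p ≤ w → ¬ p ∣ h) with hS
  have ht' : (0 : ℝ) < t := by exact_mod_cast ht
  have hkey : ∀ h : ℕ, Nat.Coprime h (∏ r ∈ ((Ioc t w).filter Nat.Prime).erase p, r) →
      ∀ r, r.Prime → t < r → r ≤ w → r ≠ p → ¬ r ∣ h := by
    intro h hh r hr h1 h2 h3 h4
    have h5 : r ∣ ∏ r ∈ ((Ioc t w).filter Nat.Prime).erase p, r := by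
      refine dvd_prod_of_mem (fun r => r) ?_
      rw [mem_erase, mem_filter, mem_Ioc]
      exact ⟨h3, ⟨h1, h2⟩, hr⟩
    exact Nat.not_coprime_of_dvd_of_dvd hr.one_lt h4 h5 hh
  by_cases hpt : t < p
  · have hsub : (Icc 1 y).filter (fun h => Nat.Coprime h
        (∏ r ∈ ((Ioc t w).filter Nat.Prime).erase p, r)) ⊆
        S ∪ (Ioc 0 y).filter (fun h => p ∣ h) := by
      intro h hh
      rw [mem_filter, mem_Icc] at hh
      rw [mem_union, hS, mem_filter, mem_Icc, mem_filter, mem_Ioc]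
      by_cases hd : p ∣ h
      · exact Or.inr ⟨⟨by omega, hh.1.2⟩, hd⟩
      · refine Or.inl ⟨hh.1, fun r hr h1 h2 => ?_⟩
        by_cases h3 : r = p
        · rw [h3]; exact hd
        · exact hkey h hh.2 r hr h1 h2 h3
    have h1 := (card_le_card hsub).trans (card_union_le _ _)
    rw [Nat.Ioc_filter_dvd_card_eq_div] at h1
    have h2 : (((Icc 1 y).filter (fun h => Nat.Coprime h
        (∏ r ∈ ((Ioc t w).filter Nat.Prime).erase p, r))).card : ℝ) ≤ S.card + (y / p : ℕ) := by
      exact_mod_cast h1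
    have h3 : ((y / p : ℕ) : ℝ) ≤ y / p := Nat.cast_div_le
    have h4 : (y : ℝ) / p ≤ y / t := by
      have : (t : ℝ) ≤ p := by exact_mod_cast hpt.le
      gcongr
    linarith
  · have hsub : (Icc 1 y).filter (fun h => Nat.Coprime h
        (∏ r ∈ ((Ioc t w).filter Nat.Prime).erase p, r)) ⊆ S := by
      intro h hh
      rw [mem_filter] at hh
      rw [hS, mem_filter]
      exact ⟨hh.1, fun r hr h1 h2 => hkey h hh.2 r hr h1 h2 (by omega)⟩
    have h1 : (((Icc 1 y).filter (fun h => Nat.Coprime h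
        (∏ r ∈ ((Ioc t w).filter Nat.Prime).erase p, r))).card : ℝ) ≤ S.card := by
      exact_mod_cast card_le_card hsub
    have h2 : (0 : ℝ) ≤ y / t := by positivity
    linarith

theorem rc (h1 : StmtRN) (h2 : StmtSE) (h3 : StmtPI) : StmtRC := by
  obtain ⟨CN, hCN, wN, hRN⟩ := h1
  obtain ⟨CS, hCS, H0, hSE⟩ := h2
  obtain ⟨cP, hcP, hPI⟩ := h3
  obtain ⟨C3, hC3, hMP⟩ := Pool.Agent.Helper37.PP.mp
  obtain ⟨CH, hCH, hPH⟩ := Pool.Agent.Helper75.LG.ph
  have hCN0 : 0 < CN := by linarith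
  have hCS0 : 0 < CS := by linarith
  set C2 : ℝ := CS * (1 / (4 * cP ^ 2) + 1 / (2 * cP)) with hC2def
  have hC2 : 0 < C2 := by positivity
  set C' : ℝ := (CN + 1) * (2 * C3) * CN with hC'
  have hC'0 : 0 < C' := by positivity
  refine ⟨1 + (16 * C2 + 4) + 8 * C2 * C', by
    have : 0 < 8 * C2 * C' := by positivity
    linarith, fun M hM => ?_⟩
  have hMr : (1 : ℝ) ≤ M := by exact_mod_cast hM
  set M' : ℕ := ⌈8 * C2 * M⌉₊ with hM'
  have hM'1 : 8 * C2 * M ≤ M' := Nat.le_ceil _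
  have hM'2 : (M' : ℝ) < 8 * C2 * M + 1 := Nat.ceil_lt_add_one (by positivity)
  have hM'0 : 0 < M' := Nat.ceil_pos.2 (by positivity)
  set m : ℕ := M' + 1 with hm
  have hm2 : 2 ≤ m := by omega
  have hmr : (2 : ℝ) ≤ m := by exact_mod_cast hm2
  obtain ⟨y0, hy0⟩ := hPI m hm2
  have hlim1 : Tendsto (fun w : ℕ => Real.log w) atTop atTop :=
    Real.tendsto_log_atTop.comp tendsto_natCast_atTop_atTop
  have hlim2 : Tendsto (fun w : ℕ => Real.log (Real.log w)) atTop atTop :=
    Real.tendsto_log_atTop.comp hlim1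
  have hlim3 : Tendsto (fun w : ℕ => Real.log (Real.log (Real.log w))) atTop atTop :=
    Real.tendsto_log_atTop.comp hlim2
  obtain ⟨w0, hw0⟩ := eventually_atTop.1 ((hlim1.eventually_ge_atTop (m : ℝ)).and
    ((hlim2.eventually_ge_atTop 1).and ((hlim3.eventually_ge_atTop 1).and
    ((hlim1.eventually (ev_mul_log 4)).and ((hlim2.eventually (ev_mul_log (4 * m * CH / cP))).and
    ((eventually_ge_atTop wN).and
    (eventually_ge_atTop (max (4 * m * (H0 + 1)) (max y0 (64 * m ^ 2))))))))))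
  refine ⟨w0, fun w p y s hw hp hpw hy1 hy2 hs => ?_⟩
  obtain ⟨e1, e2, e3, e4, e5, e6, e7⟩ := hw0 w hw
  have e7a : 4 * m * (H0 + 1) ≤ w := (le_max_left _ _).trans e7
  have e7b : y0 ≤ w := ((le_max_left _ _).trans (le_max_right _ _)).trans e7
  have e7c : 64 * m ^ 2 ≤ w := ((le_max_right _ _).trans (le_max_right _ _)).trans e7
  set l := Real.log w with hl
  set L := Real.log l with hL
  set l3 := Real.log L with hl3
  have hl2 : 2 ≤ l := hmr.trans e1
  have hl0 : 0 < l := by linarith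
  have hL0 : 0 < L := by linarith
  have hl30 : 0 < l3 := by linarith
  have hm0 : (0 : ℝ) < m := by linarith
  have hwpos : 0 < w := by
    rcases Nat.eq_zero_or_pos w with h | h
    · rw [h] at hl; simp at hl; linarith
    · exact h
  have hw0' : (0 : ℝ) < w := by exact_mod_cast hwpos
  have hlw : l ≤ w := by
    have := Real.log_le_sub_one_of_pos hw0'
    linarith
  have hwy' : (w : ℝ) ≤ y := by nlinarith
  have hwy : w ≤ y := by exact_mod_cast hwy'
  have hy0' : (0 : ℝ) < y := by linarith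
  have hyw : w * m ≤ y := by
    have : (w : ℝ) * m ≤ y := by nlinarith
    exact_mod_cast this
  -- the logarithm of y
  have hly1 : l ≤ Real.log y := Real.log_le_log hw0' hwy'
  have hly2 : Real.log y ≤ 2 * l := by
    have h1 := Real.log_le_log hy0' hy2
    rw [Real.log_mul hw0'.ne' (by positivity), Real.log_pow] at h1
    push_cast at h1
    linarith
  have hly0 : 0 < Real.log y := by linarith
  -- the parameter t
  obtain ⟨t, ht2, htw, htl, hcount, hlt1, hlt2⟩ := hRN w y e6 hwy hy2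
  have ht0 : (0 : ℝ) < t := by exact_mod_cast (by omega : 0 < t)
  have hlt0 : 0 < Real.log t := Real.log_pos (by exact_mod_cast (by omega : 1 < t))
  set T1 := ((Icc 1 t).filter Nat.Prime).erase p with hT1
  set T2 := ((Ioc t w).filter Nat.Prime).erase p with hT2
  set q1 : ℕ := ∏ r ∈ T1, r with hq1
  set q2 : ℕ := ∏ r ∈ T2, r with hq2
  have hq : primorial w / p = q1 * q2 := split w t p hp hpw htw
  have hT1p : ∀ r ∈ T1, r.Prime := fun r hr => (mem_filter.1 (mem_of_mem_erase hr)).2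
  have hT2p : ∀ r ∈ T2, r.Prime := fun r hr => (mem_filter.1 (mem_of_mem_erase hr)).2
  have hq1pos : 0 < q1 := prod_pos fun r hr => (hT1p r hr).pos
  have hq2pos : 0 < q2 := prod_pos fun r hr => (hT2p r hr).pos
  have hq1r : (0 : ℝ) < q1 := by exact_mod_cast hq1pos
  have hco : Nat.Coprime q1 q2 := by
    refine Nat.Coprime.prod_left fun r hr => Nat.Coprime.prod_right fun r' hr' => ?_
    rw [Nat.coprime_primes (hT1p r hr) (hT2p r' hr')]
    intro h
    have h4 := (mem_Icc.1 (mem_filter.1 (mem_of_mem_erase hr)).1).2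
    have h5 := (mem_Ioc.1 (mem_filter.1 (mem_of_mem_erase hr')).1).1
    omega
  -- the density
  set F : ℝ := ∏ r ∈ T1, (1 - 1 / (r : ℝ)) with hF
  have hφ : (Nat.totient q1 : ℝ) = q1 * F := totient_prod T1 hT1p
  obtain ⟨hF1, hF2⟩ := erase_bounds t p hp
  have hWpos := WW_pos t
  have hF0 : 0 < F := lt_of_lt_of_le hWpos hF1
  have hWup : WW t ≤ C3 / Real.log t := Pool.Agent.Helper73.RR.prod_le hMP hC3 t ht2
  have hWlo : 1 / (CH * Real.log t) ≤ WW t := WW_lower hPH hCH t ht2
  have hFup : F ≤ 2 * C3 * CN * L / (l * l3) := by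
    have h4 : C3 / Real.log t ≤ C3 * CN * L / (l * l3) := by
      rw [div_le_div_iff₀ hlt0 (by positivity)]
      rw [div_le_iff₀ (by positivity)] at hlt1
      have h5 : C3 * (l * l3) ≤ C3 * (Real.log t * (CN * L)) := by gcongr
      linarith
    calc F ≤ 2 * WW t := hF2
      _ ≤ 2 * (C3 * CN * L / (l * l3)) := by linarith
      _ = 2 * C3 * CN * L / (l * l3) := by ring
  have hFlo : L / (CH * (l * l3)) ≤ F := by
    have h4 : L / (CH * (l * l3)) ≤ 1 / (CH * Real.log t) := by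
      rw [div_le_div_iff₀ (by positivity) (by positivity)]
      rw [le_div_iff₀ hL0] at hlt2
      have h5 : CH * (Real.log t * L) ≤ CH * (l * l3) := by gcongr
      linarith
    linarith
  -- the total
  set N2 := (Icc 1 y).filter (fun h => Nat.Coprime h q2) with hN2
  have hN2c : (N2.card : ℝ) ≤ (CN + 1) * (y * L / l) := by
    have h4 := N2_card w t p y (by omega) htw _ hcount
    have h5 : (y : ℝ) / t ≤ y * L / l := by
      rw [div_le_div_iff₀ ht0 hl0]
      have h6 : l ≤ t := by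
        have h7 : l ≤ l ^ 4 := by
          have h8 : 1 ≤ l ^ 3 := one_le_pow₀ (by linarith)
          nlinarith
        linarith
      have h9 : l ≤ L * t := by nlinarith
      have h10 : y * l ≤ y * (L * t) := by gcongr
      linarith
    calc (N2.card : ℝ) ≤ CN * (y * L / l) + y / t := h4
      _ ≤ (CN + 1) * (y * L / l) := by linarith
  set τ : ℝ := C' * (y * L ^ 2 / (l ^ 2 * l3)) with hτ
  have hτ0 : 0 < τ := by positivity
  set Tot : ℕ → ℝ := fun b => ((N2.filter (fun h => Nat.Coprime (b + h) q1)).card : ℝ) with hTot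
  have hTot1 : ∑ b ∈ range q1, Tot b ≤ τ * q1 := by
    have h4 : ∑ b ∈ range q1, Tot b = N2.card * (q1 * F) := by
      rw [← hφ]
      simp only [hTot]
      exact_mod_cast sum_count q1 N2
    rw [h4]
    calc (N2.card : ℝ) * (q1 * F) ≤ ((CN + 1) * (y * L / l)) * (q1 *
          (2 * C3 * CN * L / (l * l3))) := by gcongr
      _ = τ * q1 := by rw [hτ, hC']; field_simp
  -- the blocks
  set H : ℕ := y / (4 * m) with hH
  have hy64 : 64 * (m : ℝ) ^ 2 ≤ y := by
    have : (64 * (m : ℝ) ^ 2) ≤ w := by exact_mod_cast e7c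
    linarith
  have hHH0 : H0 + 1 ≤ H := by
    rw [hH, Nat.le_div_iff_mul_le (by omega)]
    calc (H0 + 1) * (4 * m) = 4 * m * (H0 + 1) := by ring
      _ ≤ y := e7a.trans hwy
  have hHup : (H : ℝ) ≤ y / (4 * m) := by
    have := @Nat.cast_div_le ℝ _ _ _ y (4 * m)
    push_cast at this
    exact this
  have hHlo : (y : ℝ) / (8 * m) ≤ H := by
    have h4 := div_lower y (4 * m) (by omega)
    push_cast at h4
    have h5 : 1 ≤ (y : ℝ) / (8 * m) := by
      rw [le_div_iff₀ (by positivity)]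
      nlinarith
    have h6 : (y : ℝ) / (4 * m) = y / (8 * m) + y / (8 * m) := by field_simp; ring
    linarith
  have hH0 : (0 : ℝ) < H := lt_of_lt_of_le (by positivity) hHlo
  have hlogH : Real.log y / 2 ≤ Real.log H := by
    have h4 : (y : ℝ) ≤ (H : ℝ) ^ 2 := by
      calc (y : ℝ) ≤ (y / (8 * m)) ^ 2 := by
            rw [div_pow, le_div_iff₀ (by positivity)]
            nlinarith
        _ ≤ (H : ℝ) ^ 2 := by gcongr
    have h5 := Real.log_le_log hy0' h4
    rw [Real.log_pow] at h5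
    push_cast at h5
    linarith
  have hlogH0 : 0 < Real.log H := by linarith
  obtain ⟨Good, hGood⟩ : ∃ Good : ℕ → ℕ → Prop, ∀ a b, Good a b ↔
      s ≤ ((Ioc (a * y / m) (a * y / m + H)).filter
      (fun j => j.Prime ∧ Nat.Coprime (b + j) q1)).card := ⟨_, fun _ _ => Iff.rfl⟩
  have hua : ∀ a, 1 ≤ a → y / m ≤ a * y / m := fun a ha =>
    Nat.div_le_div_right (Nat.le_mul_of_pos_left _ ha)
  have hgood : ∀ a ∈ Icc 1 M', (q1 : ℝ) ≤
      4 * C2 * ((range q1).filter (fun b => Good a b)).card := by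
    intro a ha
    rw [mem_Icc] at ha
    set u := a * y / m with hu
    have hHu : H ≤ u := by
      refine le_trans ?_ (hua a ha.1)
      exact Nat.div_le_div_left (by omega) (by omega)
    have hse := hSE u H (by omega) hHu T1 hT1p
    have hpi := hy0 y a (e7b.trans hwy) ha.1 (by omega)
    set A := (Ioc u (u + H)).filter Nat.Prime with hA
    set X : ℕ → ℝ := fun b => (((Ioc u (u + H)).filter
      (fun j => j.Prime ∧ Nat.Coprime (b + j) q1)).card : ℝ) with hX
    have hXA : ∀ b, X b = ((A.filter (fun j => Nat.Coprime (b + j) q1)).card : ℝ) := by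
      intro b
      simp only [hX, hA, filter_filter]
    have hcA : cP * (y / (m * Real.log y)) ≤ (A.card : ℝ) := hpi
    set μ : ℝ := A.card * F with hμ
    have hsum : ∑ b ∈ range q1, X b = μ * q1 := by
      rw [sum_congr rfl fun b _ => hXA b]
      have h4 := sum_count q1 A
      have h5 : (∑ b ∈ range q1, ((A.filter (fun h => Nat.Coprime (b + h) q1)).card : ℝ)) =
          A.card * (Nat.totient q1 : ℝ) := by exact_mod_cast h4
      rw [h5, hφ, hμ]
      ring
    have hμlo : 2 * (y / l ^ 2) ≤ μ := by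
      have h4 : cP * (y / (m * (2 * l))) ≤ (A.card : ℝ) := by
        refine le_trans ?_ hcA
        gcongr
      have h5 : cP * (y / (m * (2 * l))) * (L / (CH * (l * l3))) ≤ μ := by
        rw [hμ]
        gcongr
      refine le_trans ?_ h5
      have h6 : 4 * m * CH / cP * l3 ≤ L := e5
      rw [div_mul_eq_mul_div, div_le_iff₀ hcP] at h6
      have e8 : cP * (y / (m * (2 * l))) * (L / (CH * (l * l3))) =
          (cP * y * L) / (m * (2 * l) * (CH * (l * l3))) := by ring
      rw [e8, ← mul_div_assoc, div_le_div_iff₀ (by positivity) (by positivity)]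
      calc 2 * (y : ℝ) * (m * (2 * l) * (CH * (l * l3)))
          = y * l ^ 2 * (4 * m * CH * l3) := by ring
        _ ≤ y * l ^ 2 * (L * cP) := by gcongr
        _ = cP * y * L * l ^ 2 := by ring
    have hyl : 1 ≤ (y : ℝ) / l ^ 2 := by
      rw [le_div_iff₀ (by positivity)]
      nlinarith
    have hμ1 : 1 ≤ μ := by linarith
    have hμ0 : 0 < μ := by linarith
    have hHl : (H : ℝ) / Real.log H ≤ A.card / (2 * cP) := by
      calc (H : ℝ) / Real.log H ≤ (y / (4 * m)) / (Real.log y / 2) := by gcongr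
        _ = (cP * (y / (m * Real.log y))) / (2 * cP) := by field_simp; ring
        _ ≤ A.card / (2 * cP) := by gcongr
    have hHF : (H : ℝ) / Real.log H * F ≤ μ / (2 * cP) := by
      calc (H : ℝ) / Real.log H * F ≤ A.card / (2 * cP) * F := by gcongr
        _ = μ / (2 * cP) := by rw [hμ]; ring
    have hHF0 : 0 ≤ (H : ℝ) / Real.log H * F := by positivity
    have hsq : ∑ b ∈ range q1, X b ^ 2 ≤ C2 * (μ ^ 2 * q1) := by
      refine hse.trans ?_
      change CS * ((H / Real.log H) ^ 2 * ((Nat.totient q1 : ℝ) ^ 2 / (q1 : ℝ)) +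
        H / Real.log H * (Nat.totient q1 : ℝ)) ≤ _
      rw [hφ]
      have h4 : ((H : ℝ) / Real.log H) ^ 2 * ((q1 * F) ^ 2 / (q1 : ℝ)) +
          H / Real.log H * (q1 * F) =
          q1 * ((H / Real.log H * F) ^ 2 + H / Real.log H * F) := by
        field_simp
      rw [h4]
      have h5 : (H / Real.log H * F) ^ 2 + H / Real.log H * F ≤
          μ ^ 2 * (1 / (4 * cP ^ 2) + 1 / (2 * cP)) := by
        have h6 : (H / Real.log H * F) ^ 2 ≤ (μ / (2 * cP)) ^ 2 :=
          pow_le_pow_left₀ hHF0 hHF 2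
        have h7 : μ / (2 * cP) ≤ μ ^ 2 / (2 * cP) := by
          gcongr
          nlinarith
        calc (H / Real.log H * F) ^ 2 + H / Real.log H * F
            ≤ (μ / (2 * cP)) ^ 2 + μ ^ 2 / (2 * cP) := by linarith
          _ = μ ^ 2 * (1 / (4 * cP ^ 2) + 1 / (2 * cP)) := by ring
      calc CS * (q1 * ((H / Real.log H * F) ^ 2 + H / Real.log H * F))
          ≤ CS * (q1 * (μ ^ 2 * (1 / (4 * cP ^ 2) + 1 / (2 * cP)))) := by gcongr
        _ = C2 * (μ ^ 2 * q1) := by rw [hC2def]; ring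
    have hpz := pz q1 X μ C2 hμ0 hsum.ge hsq
    refine hpz.trans ?_
    have hsub : (range q1).filter (fun b => μ / 2 ≤ X b) ⊆
        (range q1).filter (fun b => Good a b) := by
      intro b hb
      rw [mem_filter] at hb ⊢
      refine ⟨hb.1, ?_⟩
      have h4 : (s : ℝ) ≤ X b := by
        have := hb.2
        linarith
      simp only [hX] at h4
      rw [hGood]
      exact_mod_cast h4
    have hcc : (((range q1).filter (fun b => μ / 2 ≤ X b)).card : ℝ) ≤
        ((range q1).filter (fun b => Good a b)).card := by exact_mod_cast card_le_card hsub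
    gcongr
  -- selection
  obtain ⟨b1, hb1, hS, hTb⟩ := select q1 M' C2 τ hq1pos Good Tot (fun b => Nat.cast_nonneg _)
    hgood hTot1 hτ0 hC2 hM'0
  have hMG : M ≤ ((Icc 1 M').filter (fun a => Good a b1)).card := by
    have h4 : (M : ℝ) ≤ M' / (8 * C2) := by
      rw [le_div_iff₀ (by positivity)]
      linarith
    exact_mod_cast h4.trans hS
  obtain ⟨a, ha1, ha2⟩ := enum_lt _ M hMG
  -- the class
  set b : ℕ := (Nat.chineseRemainder hco b1 0 : ℕ) with hb
  have hblt : b < q1 * q2 := Nat.chineseRemainder_lt_mul hco b1 0 hq1pos.ne' hq2pos.ne'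
  have hbm1 : b ≡ b1 [MOD q1] := (Nat.chineseRemainder hco b1 0).2.1
  have hbm2 : b ≡ 0 [MOD q2] := (Nat.chineseRemainder hco b1 0).2.2
  have hcop : ∀ h : ℕ, Nat.Coprime (b + h) (q1 * q2) ↔
      Nat.Coprime h q2 ∧ Nat.Coprime (b1 + h) q1 := by
    intro h
    rw [Nat.coprime_mul_iff_right]
    have h4 : Nat.Coprime (b + h) q1 ↔ Nat.Coprime (b1 + h) q1 := by
      unfold Nat.Coprime
      rw [(hbm1.add_right h).gcd_eq]
    have h5 : Nat.Coprime (b + h) q2 ↔ Nat.Coprime h q2 := by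
      unfold Nat.Coprime
      rw [(hbm2.add_right h).gcd_eq, zero_add]
    rw [h4, h5, and_comm]
  have hrange : ∀ i < M, 1 ≤ a i ∧ a i ≤ M' ∧ Good (a i) b1 := by
    intro i hi
    have := ha1 i hi
    rw [mem_filter, mem_Icc] at this
    exact ⟨this.1.1, this.1.2, this.2⟩
  clear_value b
  have hblock : ∀ i, ∃ v, i < M → a i * y / m ≤ v ∧ v ≤ a i * y / m + H ∧
      ((Ioc (a i * y / m) v).filter (fun h => Nat.Coprime (b + h) (q1 * q2))).card = s := by
    intro i
    by_cases hi : i < M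
    · obtain ⟨r1, r2, r3⟩ := hrange i hi
      have h4 : s ≤ ((Ioc (a i * y / m) (a i * y / m + H)).filter
          (fun h => Nat.Coprime (b + h) (q1 * q2))).card := by
        refine ((hGood _ _).1 r3).trans (card_le_card ?_)
        intro j hj
        rw [mem_filter, mem_Ioc] at hj
        rw [mem_filter, mem_Ioc]
        refine ⟨hj.1, (hcop j).2 ⟨?_, hj.2.2⟩⟩
        rw [Nat.Prime.coprime_iff_not_dvd hj.2.1]
        intro hdvd
        obtain ⟨r, hr, hjr⟩ := (Prime.dvd_finsetProd_iff hj.2.1.prime (fun r => r)).1 hdvd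
        have h5 : j = r := (Nat.prime_dvd_prime_iff_eq hj.2.1 (hT2p r hr)).1 hjr
        have h6 := (mem_Ioc.1 (mem_filter.1 (mem_of_mem_erase hr)).1).2
        have h7 : w ≤ y / m := by
          rw [Nat.le_div_iff_mul_le (by omega)]
          exact hyw
        have h8 := hua (a i) r1
        omega
      obtain ⟨v, hv1, hv2, hv3⟩ := ivt _ _ _ H h4
      exact ⟨v, fun _ => ⟨hv1, hv2, hv3⟩⟩
    · exact ⟨0, fun h => absurd h hi⟩
  choose v hv using hblock
  rw [hq]
  refine ⟨b, hblt, ?_, fun i => a i * y / m, v, ?_, ?_⟩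
  · have h4 : (Icc 1 y).filter (fun h => Nat.Coprime (b + h) (q1 * q2)) =
        N2.filter (fun h => Nat.Coprime (b1 + h) q1) := by
      rw [hN2, filter_filter]
      refine filter_congr fun h _ => hcop h
    rw [h4]
    refine hTb.trans ?_
    rw [hτ, ← mul_assoc]
    have h5 : 0 ≤ y * L ^ 2 / (l ^ 2 * l3) := by positivity
    refine mul_le_mul_of_nonneg_right ?_ h5
    linarith
  · intro i hi
    obtain ⟨r1, r2, r3⟩ := hrange i hi
    obtain ⟨v1, v2, v3⟩ := hv i hi
    refine ⟨v1, ?_, v3⟩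
    have h4 : (v i : ℝ) ≤ y := by
      have h5 : (v i : ℝ) ≤ ((a i * y / m : ℕ) : ℝ) + H := by exact_mod_cast v2
      have h6 : ((a i * y / m : ℕ) : ℝ) ≤ (a i * y : ℕ) / m := Nat.cast_div_le
      push_cast at h6
      have h7 : (a i : ℝ) ≤ m - 1 := by
        rw [hm]; push_cast
        have : (a i : ℝ) ≤ M' := by exact_mod_cast r2
        linarith
      have h8 : (a i : ℝ) * y / m ≤ (m - 1) * y / m := by gcongr
      have h9 : ((m : ℝ) - 1) * y / m = y - y / m := by field_simp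
      have h10 : (y : ℝ) / (4 * m) ≤ y / m := by
        gcongr
        linarith
      linarith
    exact_mod_cast h4
  · intro i hi
    have hi' : i < M := by omega
    obtain ⟨v1, v2, v3⟩ := hv i hi'
    have h5 : (v i : ℝ) ≤ ((a i * y / m : ℕ) : ℝ) + H := by exact_mod_cast v2
    have h6 : ((a i * y / m : ℕ) : ℝ) ≤ (a i * y : ℕ) / m := Nat.cast_div_le
    have h7 := div_lower (a (i + 1) * y) m (by omega)
    push_cast at h6 h7
    have h8 : (a i : ℝ) + 1 ≤ a (i + 1) := by exact_mod_cast ha2 i hi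
    have h9 : ((a i : ℝ) + 1) * y / m ≤ a (i + 1) * y / m := by gcongr
    have h10 : ((a i : ℝ) + 1) * y / m = a i * y / m + y / m := by ring
    have h11 : 1 ≤ (y : ℝ) / (4 * m) := by
      rw [le_div_iff₀ (by positivity)]
      nlinarith
    have h12 : (y : ℝ) / m = 4 * (y / (4 * m)) := by field_simp
    have h13 : (y : ℝ) / ((1 + (16 * C2 + 4) + 8 * C2 * C') * M) ≤ y / (2 * m) := by
      have h14 : 2 * (m : ℝ) ≤ (1 + (16 * C2 + 4) + 8 * C2 * C') * M := by
        rw [hm]; push_cast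
        have h15 : 0 ≤ 8 * C2 * C' * M := by positivity
        have e15 : (1 + (16 * C2 + 4) + 8 * C2 * C') * M =
          M + 16 * C2 * M + 4 * M + 8 * C2 * C' * M := by ring
        rw [e15]
        linarith
      gcongr
    have h16 : (y : ℝ) / (2 * m) = 2 * (y / (4 * m)) := by field_simp; ring
    change (v i : ℝ) + y / ((1 + (16 * C2 + 4) + 8 * C2 * C') * M) ≤
      ((a (i + 1) * y / m : ℕ) : ℝ)
    linarith

end Pool.Agent.Helper64.CR
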