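import Pool.Agent.Helper39.CR.GoalsS

/-!
Packet CAR4-BIG (MP_d97caa_an): a matricial system has infinitely many steps of size at least 4.
-/

set_option autoImplicit false

open scoped ComplexOrder ZeroAtInfty

namespace Pool.Agent.Helper64.CR

open Pool.Agent.Helper34.CAR Pool.Agent.Helper39.CR

theorem big (hO : S_OMG) (hS : S_SSTR) : S_BIG := by
  intro X _ θ s hM hX N
  obtain ⟨x, hx⟩ := hX
  by_contra hno
  push Not at hno
  have hcard : ∀ i, N ≤ i → Fintype.card (s.C i) = 2 := by
    intro i hi
    have h4 := hno i hi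
    obtain ⟨a, ha⟩ := s.card i
    have h2 : 1 < Fintype.card (s.C i) :=
      Fintype.one_lt_card_iff.mpr ⟨s.c0 i, s.c1 i, (s.step i).1⟩
    rw [ha] at h4 h2 ⊢
    have ha1 : a ≠ 0 := by
      rintro rfl
      simp at h2
    have ha2 : a < 2 := by
      by_contra h
      push Not at h
      have : 2 ^ 2 ≤ 2 ^ a := Nat.pow_le_pow_right (by norm_num) h
      omega
    have : a = 1 := by omega
    rw [this, pow_one]
  let t : s.S N := s.top N
  let a : s.A N := Mt.single t t (x : Unitization ℂ X)
  have hattt : a t t = (x : Unitization ℂ X) := by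
    change (Mt.single t t (x : Unitization ℂ X) : s.A N) t t = _
    rw [Mt.single_apply, if_pos ⟨rfl, rfl⟩]
  have ha0 : a ≠ 0 := by
    intro h
    rw [h, Mt.zero_apply] at hattt
    apply hx
    exact Unitization.inr_injective (R := ℂ) (by rw [← hattt, Unitization.inr_zero])
  have hafst : ∀ y z, (a y z).fst = 0 := by
    intro y z
    change ((Mt.single t t (x : Unitization ℂ X) : s.A N) y z).fst = 0
    rw [Mt.single_apply]
    split_ifs <;> simp
  obtain ⟨m, p, q, hpq⟩ := hO X θ s hM N a ha0
  obtain ⟨P, hP, hall⟩ := hS X θ s N a hafst m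
  have hP' := hall (fun i hi _ => hcard i hi)
  exact hpq ((hP p q).1 (hP' p) (hP' q))

end Pool.Agent.Helper64.CR
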