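import Pool.Agent.Helper39.CR.GoalsT

/-!
Packet CAR3-TKER (MP_d97caa_an): theories vanish on the kernel of `E → Y`.
-/

set_option autoImplicit false

open scoped ComplexOrder ZeroAtInfty
open TopologicalSpace Filter

namespace Pool.Agent.Helper64.CR

open Pool.Agent.Helper34.CAR Pool.Agent.Helper39.CR

/-! ### Matrix units over `ℂ` -/

section units

variable {J : Type} [Fintype J] [DecidableEq J]

/-- The matrix unit `e i j` as a linear map. -/
noncomputable def mu (i j : J) : ℂ →ₗ[ℂ] CStarMatrix J J ℂ where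
  toFun c := CStarMatrix.ofMatrix (Matrix.single i j c)
  map_add' a b := by
    ext p q
    rw [CStarMatrix.add_apply, CStarMatrix.ofMatrix_apply, CStarMatrix.ofMatrix_apply,
      CStarMatrix.ofMatrix_apply, Matrix.single_apply, Matrix.single_apply, Matrix.single_apply]
    split_ifs <;> simp
  map_smul' a b := by
    ext p q
    rw [CStarMatrix.smul_apply, CStarMatrix.ofMatrix_apply,
      CStarMatrix.ofMatrix_apply, Matrix.single_apply, Matrix.single_apply]
    split_ifs <;> simp

theorem mu_apply (i j : J) (c : ℂ) (p q : J) :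
    mu i j c p q = if i = p ∧ j = q then c else 0 := by
  show CStarMatrix.ofMatrix (Matrix.single i j c) p q = _
  rw [CStarMatrix.ofMatrix_apply, Matrix.single_apply]

theorem sum_entry {α : Type} (s : Finset α) (f : α → CStarMatrix J J ℂ) (i j : J) :
    (∑ p ∈ s, f p) i j = ∑ p ∈ s, f p i j := by
  classical
  induction s using Finset.induction_on with
  | empty => simp
  | insert b s hb ih => rw [Finset.sum_insert hb, Finset.sum_insert hb, CStarMatrix.add_apply, ih]

theorem mu_units : MUnits (mu : J → J → ℂ →ₗ[ℂ] CStarMatrix J J ℂ) where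
  mul i j k a b := by
    ext p q
    rw [CStarMatrix.mul_apply, Finset.sum_eq_single j]
    · rw [mu_apply, mu_apply, mu_apply]
      by_cases h1 : i = p <;> by_cases h2 : k = q <;> simp [h1, h2]
    · intro r _ hr
      rw [mu_apply, if_neg (fun h => hr h.2.symm), zero_mul]
    · intro h
      exact absurd (Finset.mem_univ j) h
  mul0 i j k l a b hjk := by
    ext p q
    rw [CStarMatrix.mul_apply]
    refine Finset.sum_eq_zero fun r _ => ?_
    rw [mu_apply, mu_apply]
    by_cases h1 : j = r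
    · have h2 : ¬ (k = r ∧ l = q) := fun h => hjk (h1.trans h.1.symm)
      rw [if_neg h2, mul_zero]
    · rw [if_neg (fun h => h1 h.2), zero_mul]
  star i j a := by
    ext p q
    rw [CStarMatrix.star_apply, mu_apply, mu_apply]
    by_cases h1 : i = q <;> by_cases h2 : j = p <;> simp [h1, h2]
  inj i j a h := by
    have h1 : mu i j a i j = 0 := by rw [h]; rfl
    rw [mu_apply, if_pos ⟨rfl, rfl⟩] at h1
    exact h1
  span x := by
    refine ⟨fun i j => x i j, ?_⟩
    ext p q
    rw [sum_entry, Finset.sum_eq_single p]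
    · rw [sum_entry, Finset.sum_eq_single q]
      · rw [mu_apply, if_pos ⟨rfl, rfl⟩]
      · intro r _ hr
        rw [mu_apply, if_neg (fun h => hr h.2)]
      · intro h
        exact absurd (Finset.mem_univ q) h
    · intro r _ hr
      rw [sum_entry]
      refine Finset.sum_eq_zero fun t _ => ?_
      rw [mu_apply, if_neg (fun h => hr h.1)]
    · intro h
      exact absurd (Finset.mem_univ p) h

end units

theorem star_cont {A B : Type} [NonUnitalCStarAlgebra A] [NonUnitalCStarAlgebra B]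
    (f : A →⋆ₙₐ[ℂ] B) : Continuous f :=
  AddMonoidHomClass.continuous_of_bound f 1 fun x => by
    simpa using NonUnitalStarAlgHom.norm_apply_le f x

section zb

variable {Y : Type} [NonUnitalCStarAlgebra Y] {S : Helper61.CAR.QSeq Y} {E : Type}
  [NonUnitalCStarAlgebra E] {Z : Type} [NonUnitalCStarAlgebra Z]

/-- The elements of `Z` with `x l = 0` for `l ≥ k`. -/
def zb (x : ∀ n, E →⋆ₙₐ[ℂ] CStarMatrix (S.J n) (S.J n) ℂ) (ι : Z →⋆ₙₐ[ℂ] E) (k : ℕ) :
    NonUnitalStarSubalgebra ℂ Z where
  carrier := {z | ∀ l, k ≤ l → x l (ι z) = 0}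
  add_mem' {a b} ha hb l hl := by rw [map_add, map_add, ha l hl, hb l hl, add_zero]
  zero_mem' l _ := by rw [map_zero, map_zero]
  mul_mem' {a b} ha hb l hl := by rw [map_mul, map_mul, ha l hl, zero_mul]
  smul_mem' c a ha l hl := by rw [map_smul, map_smul, ha l hl, smul_zero]
  star_mem' {a} ha l hl := by rw [map_star, map_star, ha l hl, star_zero]

theorem mem_zb {x : ∀ n, E →⋆ₙₐ[ℂ] CStarMatrix (S.J n) (S.J n) ℂ} {ι : Z →⋆ₙₐ[ℂ] E} {k : ℕ}
    {z : Z} : z ∈ zb x ι k ↔ ∀ l, k ≤ l → x l (ι z) = 0 := Iff.rfl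

instance (x : ∀ n, E →⋆ₙₐ[ℂ] CStarMatrix (S.J n) (S.J n) ℂ) (ι : Z →⋆ₙₐ[ℂ] E) (k : ℕ) :
    IsClosed ((zb x ι k : NonUnitalStarSubalgebra ℂ Z) : Set Z) := by
  have h : ((zb x ι k : NonUnitalStarSubalgebra ℂ Z) : Set Z) =
      ⋂ l, ⋂ (_ : k ≤ l), {z | x l (ι z) = 0} := by
    ext z
    simp only [Set.mem_iInter]
    rfl
  rw [h]
  exact isClosed_iInter fun l => isClosed_iInter fun _ =>
    isClosed_eq ((star_cont (x l)).comp (star_cont ι)) continuous_const

/-- The inclusions. -/
def zj (x : ∀ n, E →⋆ₙₐ[ℂ] CStarMatrix (S.J n) (S.J n) ℂ) (ι : Z →⋆ₙₐ[ℂ] E) (k : ℕ) :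
    zb x ι k →⋆ₙₐ[ℂ] zb x ι (k + 1) where
  toFun z := ⟨z.1, fun l hl => z.2 l (by omega)⟩
  map_smul' _ _ := rfl
  map_zero' := rfl
  map_add' _ _ := rfl
  map_mul' _ _ := rfl
  map_star' _ := rfl

/-- The inclusions into `Z`. -/
def zu (x : ∀ n, E →⋆ₙₐ[ℂ] CStarMatrix (S.J n) (S.J n) ℂ) (ι : Z →⋆ₙₐ[ℂ] E) (k : ℕ) :
    zb x ι k →⋆ₙₐ[ℂ] Z where
  toFun z := z.1
  map_smul' _ _ := rfl
  map_zero' := rfl
  map_add' _ _ := rfl
  map_mul' _ _ := rfl
  map_star' _ := rfl

/-- The quotient maps. -/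
def zq (x : ∀ n, E →⋆ₙₐ[ℂ] CStarMatrix (S.J n) (S.J n) ℂ) (ι : Z →⋆ₙₐ[ℂ] E) (k : ℕ) :
    zb x ι (k + 1) →⋆ₙₐ[ℂ] CStarMatrix (S.J k) (S.J k) ℂ :=
  ((x k).comp ι).comp (zu x ι (k + 1))

theorem zq_apply (x : ∀ n, E →⋆ₙₐ[ℂ] CStarMatrix (S.J n) (S.J n) ℂ) (ι : Z →⋆ₙₐ[ℂ] E) (k : ℕ)
    (z : zb x ι (k + 1)) : zq x ι k z = x k (ι z.1) := rfl

end zb

theorem tker (hTZ : S_TZ) : S_TKER := by
  intro T Y _ S E _ _ x ρ hE Z _ ι hι hker
  have hZsep : SeparableSpace Z := sep_of_inj ι hι
  have hρ : ∀ z, ρ (ι z) = 0 := fun z => (hker _).2 ⟨z, rfl⟩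
  -- lifting
  have hlift : ∀ (f : ∀ n, CStarMatrix (S.J n) (S.J n) ℂ) (k : ℕ), (∀ n, k ≤ n → f n = 0) →
      ∃ z : Z, ∀ n, x n (ι z) = f n := by
    intro f k hf
    obtain ⟨e, he1, he2⟩ := hE.ex f 0 (by
      refine tendsto_const_nhds.congr' ?_
      filter_upwards [eventually_ge_atTop k] with n hn
      rw [hf n hn, map_zero, sub_self, norm_zero])
    obtain ⟨z, hz⟩ := (hker e).1 he2
    exact ⟨z, fun n => by rw [hz, he1]⟩
  have hnorm : ∀ (z : Z) (c : ℝ), 0 ≤ c → (∀ n, ‖x n (ι z)‖ ≤ c) → ‖z‖ ≤ c := by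
    intro z c hc h
    have h1 := hE.norm_le (ι z) c hc h (by rw [hρ, norm_zero]; exact hc)
    have h2 : ‖ι z‖ = ‖z‖ := (NonUnitalStarAlgHom.isometry ι hι).norm_map_of_map_zero (map_zero ι) z
    rw [h2] at h1
    exact h1
  have hsepM : ∀ k, SeparableSpace (CStarMatrix (S.J k) (S.J k) ℂ) := by
    intro k
    have hs : Function.Surjective ((x k).comp ι) := by
      intro a
      obtain ⟨z, hz⟩ := hlift (Function.update (fun _ => 0) k a) (k + 1) (by
        intro n hn
        rw [Function.update_of_ne (by omega)])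
      refine ⟨z, ?_⟩
      have := hz k
      rw [Function.update_self] at this
      exact this
    exact hs.denseRange.separableSpace (star_cont _)
  -- the stages
  have hstage : ∀ k, T.Zero (zb x ι k) := by
    intro k
    induction k with
    | zero =>
      refine (hTZ T).2.1 _ ?_
      intro z
      apply Subtype.ext
      have h1 : ‖(z : Z)‖ ≤ 0 := hnorm _ 0 le_rfl fun n => by
        rw [z.2 n (Nat.zero_le n), norm_zero]
      exact norm_le_zero_iff.1 h1
    | succ k ih =>
      have := hsepM k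
      have hM : T.Zero (CStarMatrix (S.J k) (S.J k) ℂ) :=
        (hTZ T).2.2 _ (S.J k) mu mu_units
      intro i y
      obtain ⟨d, hd, -, -⟩ := T.exact i (zb x ι k) (zb x ι (k + 1))
        (CStarMatrix (S.J k) (S.J k) ℂ) (zj x ι k) (zq x ι k)
        (by
          intro a b hab
          apply Subtype.ext
          exact congrArg (fun z : zb x ι (k + 1) => z.1) hab)
        (by
          intro a
          obtain ⟨z, hz⟩ := hlift (Function.update (fun _ => 0) k a) (k + 1) (by
            intro n hn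
            rw [Function.update_of_ne (by omega)])
          refine ⟨⟨z, fun l hl => ?_⟩, ?_⟩
          · rw [hz l, Function.update_of_ne (by omega)]
          · rw [zq_apply]
            have := hz k
            rw [Function.update_self] at this
            exact this)
        (by
          intro z
          constructor
          · intro h0
            refine ⟨⟨z.1, fun l hl => ?_⟩, rfl⟩
            rcases hl.eq_or_lt with h1 | h1
            · rw [← h1]
              exact h0
            · exact z.2 l h1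
          · rintro ⟨z', rfl⟩
            exact z'.2 k le_rfl)
      obtain ⟨y', hy'⟩ := (hd y).1 (ih i _)
      rw [← hy', hM i y', map_zero]
  -- the union
  intro i y
  obtain ⟨d, -, hd⟩ := (T.milnor i Z (fun k => zb x ι k) (fun k => zj x ι k) (fun k => zu x ι k)
    (fun k a b hab => Subtype.ext hab) (fun k b => rfl)
    (by
      rw [Metric.dense_iff]
      intro z r hr
      have h1 := hE.lim (ι z)
      obtain ⟨k, hk⟩ := eventually_atTop.1 (h1.eventually_lt_const (half_pos hr))
      obtain ⟨z', hz'⟩ := hlift (fun n => if n < k then x n (ι z) else 0) k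
        (fun n hn => if_neg (not_lt.2 hn))
      refine ⟨z', ?_, Set.mem_iUnion.2 ⟨k, ⟨⟨z', fun l hl => ?_⟩, rfl⟩⟩⟩
      · rw [Metric.mem_ball, dist_eq_norm]
        refine lt_of_le_of_lt (hnorm _ (r / 2) (by positivity) ?_) (half_lt_self hr)
        intro n
        rw [map_sub, map_sub, hz' n]
        rcases lt_or_ge n k with hn | hn
        · rw [if_pos hn, sub_self, norm_zero]
          positivity
        · rw [if_neg (not_lt.2 hn), zero_sub, norm_neg]
          have h2 := hk n hn
          rw [hρ, map_zero, sub_zero] at h2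
          exact h2.le
      · rw [hz' l, if_neg (not_lt.2 hl)])).2
  obtain ⟨w, hw⟩ := (hd y).1 fun k => hstage k i _
  have hw0 : w = 0 := by
    funext k
    exact hstage k (i + 1) (w k)
  rw [← hw, hw0, map_zero]

end Pool.Agent.Helper64.CR
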